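import Pool.Agent.Helper61.FN.Goals

/-!
# Packet FN-ACY (MP_06d934_gt): the 4-cycle
-/

set_option autoImplicit false

namespace Pool.Agent.Helper36.FN

open Finset Pool.Agent.Helper61.FN

theorem goalACY : G_ACY := by
  intro F k _ _ _ _ _ n lam v M ξ h h0 h3 h5 h2 h1 h4
  have Ex : ∀ e, ∑ j, (mA j e : k) * (if gr (mA j) v = 0 then
      algebraMap F k (cA n j) * mon ξ (mA j) else 0) = 0 := fun e ↦ h.nrm.ld0 e
  generalize hY : (fun j : Fin 18 ↦ if gr (mA j) v = 0 then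
      algebraMap F k (cA n j) * mon ξ (mA j) else 0) = Y at Ex
  have hYj : ∀ j, Y j = if gr (mA j) v = 0 then
      algebraMap F k (cA n j) * mon ξ (mA j) else 0 := fun j ↦ by rw [← hY]
  simp only [← hYj] at Ex
  have z : ∀ j : Fin 18, gr (mA j) v ≠ 0 → Y j = 0 := fun j hj ↦ by rw [hYj, if_neg hj]
  have z0 : Y 0 = 0 := z 0 (by rw [gr6]; simp [mA]; omega)
  have z1 : Y 1 = 0 := z 1 (by rw [gr6]; simp [mA]; omega)
  have z2 : Y 2 = 0 := z 2 (by rw [gr6]; simp [mA]; omega)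
  have z3 : Y 3 = 0 := z 3 (by rw [gr6]; simp [mA]; omega)
  have z4 : Y 4 = 0 := z 4 (by rw [gr6]; simp [mA]; omega)
  have z5 : Y 5 = 0 := z 5 (by rw [gr6]; simp [mA]; omega)
  have z6 : Y 6 = 0 := z 6 (by rw [gr6]; simp [mA]; omega)
  have z8 : Y 8 = 0 := z 8 (by rw [gr6]; simp [mA]; omega)
  have z9 : Y 9 = 0 := z 9 (by rw [gr6]; simp [mA]; omega)
  have z10 : Y 10 = 0 := z 10 (by rw [gr6]; simp [mA]; omega)
  have z13 : Y 13 = 0 := z 13 (by rw [gr6]; simp [mA]; omega)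
  have z14 : Y 14 = 0 := z 14 (by rw [gr6]; simp [mA]; omega)
  have z15 : Y 15 = 0 := z 15 (by rw [gr6]; simp [mA]; omega)
  have z17 : Y 17 = 0 := z 17 (by rw [gr6]; simp [mA]; omega)
  have e1 := Ex 1
  have e4 := Ex 4
  have e0 := Ex 0
  have e3 := Ex 3
  simp [Fin.sum_univ_succ, mA, z0, z1, z2, z3, z4, z5, z6, z8, z9, z10, z13, z14, z15, z17] at e0 e1 e3 e4
  have n0 := h.pos 0
  have n1 := h.pos 1
  have n2 := h.pos 2
  have y7 : Y 7 ≠ 0 := by
    rw [hYj, if_pos (by rw [gr6]; simp [mA]; omega)]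
    refine mul_ne_zero (am_ne ?_) (mon_ne h.nrm.ne _)
    have : cA n 7 = -(n 0 * n 1 * n 2) / 2 := rfl
    rw [this]
    have h6 : 0 < n 0 * n 1 * n 2 := by positivity
    intro h7
    linarith
  have : CharZero k := (RingHom.charZero_iff (algebraMap F k).injective).1 inferInstance
  apply y7
  have h8 : (2 : k) * Y 7 = 0 := by linear_combination (-1 : k) * e0 - e3 - e4
  exact (mul_eq_zero.1 h8).resolve_left two_ne_zero

end Pool.Agent.Helper36.FN
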